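import Pool.Agent.Helper629.BACFinal

set_option autoImplicit false
set_option linter.unusedSectionVars false

namespace Pool.Agent.Results.MP_086137_an.GeneralCase

open Filter Topology

section defs

variable {A : Type} [NonUnitalNormedRing A] [NormedSpace ℂ A]
  {X : Type} [NormedAddCommGroup X] [NormedSpace ℂ X]

/-- bounded bilinear actions of `A` on `X` -/
def Act (A : Type) [NonUnitalNormedRing A] [NormedSpace ℂ A] (X : Type) [NormedAddCommGroup X]
    [NormedSpace ℂ X] : Type := A →L[ℂ] X →L[ℂ] X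

/-- the value of an action -/
noncomputable def act (L : Act A X) (a : A) (x : X) : X :=
  (show A →L[ℂ] X →L[ℂ] X from L) a x

/-- `L` is a left action, `R` is a right action (`act R a x` is `x · a`), and they commute. -/
def IsBimodule (L R : Act A X) : Prop :=
  (∀ (a b : A) (x : X), act L (a * b) x = act L a (act L b x)) ∧
  (∀ (a b : A) (x : X), act R (a * b) x = act R b (act R a x)) ∧
  ∀ (a b : A) (x : X), act L a (act R b x) = act R b (act L a x)

/-- `D (a b) = a · D b + D a · b` -/
def IsDerivation (L R : Act A X) (D : A →L[ℂ] X) : Prop :=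
  ∀ a b : A, D (a * b) = act L a (D b) + act R b (D a)

/-- the inner derivation `a ↦ a · ξ - ξ · a` -/
noncomputable def ad (L R : Act A X) (ξ : X) (a : A) : X := act L a ξ - act R a ξ

/-- `D` is the pointwise norm limit of a net of inner derivations with uniformly bounded operator
norms; the net is indexed by pairs of a finite set and a positive tolerance. -/
def BoundedlyApproximatelyInner (L R : Act A X) (D : A →L[ℂ] X) : Prop :=
  ∃ C : ℝ, ∀ F : Finset A, ∀ ε : ℝ, 0 < ε → ∃ ξ : X,
    (∀ a : A, ‖ad L R ξ a‖ ≤ C * ‖a‖) ∧ ∀ a ∈ F, ‖D a - ad L R ξ a‖ < ε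

end defs

/-- `A`, a complex Banach algebra that need not have a unit, is boundedly approximately
contractible: for every Banach bimodule `X`, every continuous derivation from `A` to `X` is
boundedly approximately inner. -/
def BoundedlyApproximatelyContractible (A : Type) [NonUnitalNormedRing A] [NormedSpace ℂ A] :
    Prop :=
  ∀ (X : Type) [NormedAddCommGroup X] [NormedSpace ℂ X] [CompleteSpace X]
    (L R : Act A X), IsBimodule L R →
    ∀ D : A →L[ℂ] X, IsDerivation L R D → BoundedlyApproximatelyInner L R D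

/-- `J` has a bounded approximate identity. -/
def HasBAI {A : Type} [NonUnitalNormedRing A] [NormedSpace ℂ A] (J : Submodule ℂ A) : Prop :=
  ∃ C : ℝ, ∀ F : Finset A, (∀ x ∈ F, x ∈ J) → ∀ ε : ℝ, 0 < ε →
    ∃ e ∈ J, ‖e‖ ≤ C ∧ ∀ x ∈ F, ‖e * x - x‖ < ε ∧ ‖x * e - x‖ < ε

section aux

variable {A : Type} [NonUnitalNormedRing A] [NormedSpace ℂ A] [IsScalarTower ℂ A A]
  [SMulCommClass ℂ A A]

/-- the unitization with its sum norm -/
abbrev U (A : Type) [NonUnitalNormedRing A] [NormedSpace ℂ A] : Type :=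
  WithLp 1 (Unitization ℂ A)

/-- the inclusion of `A` -/
noncomputable def inc : A →L[ℂ] U A :=
  LinearMap.mkContinuous
    { toFun := fun a => (WithLp.toLp 1 (a : Unitization ℂ A) : U A)
      map_add' := fun a b => by
        rw [Unitization.inr_add]; rfl
      map_smul' := fun c a => by
        rw [Unitization.inr_smul]; rfl } 1
    (fun a => by
      rw [one_mul]
      exact (WithLp.unitization_norm_inr a).le)

lemma inc_apply (a : A) : inc a = (WithLp.toLp 1 (a : Unitization ℂ A) : U A) := rfl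

lemma inc_norm (a : A) : ‖(inc a : U A)‖ = ‖a‖ := WithLp.unitization_norm_inr a

lemma inc_mul (a b : A) : (inc (a * b) : U A) = inc a * inc b := by
  rw [inc_apply, Unitization.inr_mul]; rfl

/-- scalar part -/
def sc (x : U A) : ℂ := (WithLp.ofLp x).fst
/-- algebra part -/
def al (x : U A) : A := (WithLp.ofLp x).snd

lemma decomp (x : U A) : x = sc x • (1 : U A) + inc (al x) := by
  apply WithLp.ofLp_injective
  have : WithLp.ofLp (sc x • (1 : U A) + inc (al x))
      = sc x • (1 : Unitization ℂ A) + ((al x : A) : Unitization ℂ A) := rfl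
  rw [this]
  ext <;> simp [sc, al]

lemma al_norm (x : U A) : ‖al x‖ ≤ ‖x‖ := by
  rw [WithLp.unitization_norm_def]
  have := norm_nonneg (WithLp.ofLp x).fst
  unfold al
  linarith

lemma sc_norm (x : U A) : ‖sc x‖ ≤ ‖x‖ := by
  rw [WithLp.unitization_norm_def]
  have := norm_nonneg (WithLp.ofLp x).snd
  unfold sc
  linarith

variable [CompleteSpace A]

lemma ubac_unitization (h : BoundedlyApproximatelyContractible A) :
    Pool.Agent.Helper629.BAC.UBAC (U A) := by
  intro X _ _ _ L R hL1 hR1 hL hR hLR D hD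
  have hL' : ∀ (a b : U A) (x : X), L (a * b) x = L a (L b x) := fun a b x => by
    rw [hL]; rfl
  have hR' : ∀ (a b : U A) (x : X), R (a * b) x = R b (R a x) := fun a b x => by
    rw [hR]; rfl
  have hLR' : ∀ (a b : U A) (x : X), L a (R b x) = R b (L a x) := fun a b x => by
    have := congrArg (fun T => T x) (hLR a b)
    exact this
  obtain ⟨C, hC⟩ := h X (L.comp inc : A →L[ℂ] X →L[ℂ] X) (R.comp inc : A →L[ℂ] X →L[ℂ] X)
    ⟨fun a b x => by
        change L (inc (a * b)) x = L (inc a) (L (inc b) x)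
        rw [inc_mul]; exact hL' _ _ _,
      fun a b x => by
        change R (inc (a * b)) x = R (inc b) (R (inc a) x)
        rw [inc_mul]; exact hR' _ _ _,
      fun a b x => by
        change L (inc a) (R (inc b) x) = R (inc b) (L (inc a) x)
        exact hLR' _ _ _⟩
    (D.comp inc)
    (by
      intro a b
      change D (inc (a * b)) = L (inc a) (D (inc b)) + R (inc b) (D (inc a))
      rw [inc_mul]; exact hD _ _)
  have hD1 : D 1 = 0 := by
    have := hD 1 1
    rw [mul_one, hL1, hR1] at this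
    simpa using this
  have hDx : ∀ x : U A, D x = D (inc (al x)) := by
    intro x
    conv_lhs => rw [decomp x]
    rw [map_add, map_smul, hD1, smul_zero, zero_add]
  have hLx : ∀ (x : U A) (ξ : X), L x ξ - R x ξ = L (inc (al x)) ξ - R (inc (al x)) ξ := by
    intro x ξ
    conv_lhs => rw [decomp x]
    simp only [map_add, map_smul, _root_.add_apply, _root_.smul_apply, hL1, hR1]
    abel
  refine ⟨|C|, fun F ε hε => ?_⟩
  classical
  obtain ⟨ξ, h1, h2⟩ := hC (F.image al) ε hε
  refine ⟨ξ, fun x => ?_, fun x hx => ?_⟩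
  · rw [hLx]
    calc ‖L (inc (al x)) ξ - R (inc (al x)) ξ‖ ≤ C * ‖al x‖ := h1 (al x)
      _ ≤ |C| * ‖x‖ := mul_le_mul (le_abs_self C) (al_norm x) (norm_nonneg _) (abs_nonneg _)
  · rw [hDx, hLx]
    exact h2 (al x) (Finset.mem_image_of_mem _ hx)

/-- the copy of `J` in the unitization -/
noncomputable def JU (J : Submodule ℂ A) : Submodule ℂ (U A) := J.map ((inc : A →L[ℂ] U A) : A →ₗ[ℂ] U A)

lemma mem_JU (J : Submodule ℂ A) (x : U A) : x ∈ JU J ↔ sc x = 0 ∧ al x ∈ J := by
  constructor
  · rintro ⟨a, ha, rfl⟩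
    exact ⟨rfl, ha⟩
  · rintro ⟨h1, h2⟩
    refine ⟨al x, h2, ?_⟩
    conv_rhs => rw [decomp x, h1, zero_smul, zero_add]
    rfl

end aux

/-- **Positive answer, for all complex Banach algebras, unital or not.** -/
theorem result :
    ∀ (A : Type) [NonUnitalNormedRing A] [NormedSpace ℂ A] [IsScalarTower ℂ A A]
      [SMulCommClass ℂ A A] [CompleteSpace A],
      BoundedlyApproximatelyContractible A →
      ∀ J : Submodule ℂ A, (∀ a x : A, x ∈ J → a * x ∈ J ∧ x * a ∈ J) →
        IsClosed (J : Set A) → FiniteDimensional ℂ (A ⧸ J) → HasBAI J := by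
  intro A _ _ _ _ _ hA J hJ hcl hfd
  have hU := ubac_unitization hA
  have hJU : ∀ a x : U A, x ∈ JU J → a * x ∈ JU J ∧ x * a ∈ JU J := by
    rintro a _ ⟨x, hx, rfl⟩
    have hx' : x ∈ J := hx
    change a * inc x ∈ JU J ∧ inc x * a ∈ JU J
    rw [decomp a, add_mul, mul_add, smul_mul_assoc, mul_smul_comm, one_mul, mul_one, ← inc_mul,
      ← inc_mul]
    exact ⟨(JU J).add_mem ((JU J).smul_mem _ ⟨x, hx', rfl⟩) ⟨_, (hJ _ _ hx').1, rfl⟩,
      (JU J).add_mem ((JU J).smul_mem _ ⟨x, hx', rfl⟩) ⟨_, (hJ _ _ hx').2, rfl⟩⟩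
  have hcont_al : Continuous (al : U A → A) := by
    have : LipschitzWith 1 (al : U A → A) := LipschitzWith.of_dist_le_mul fun x y => by
      rw [dist_eq_norm, dist_eq_norm, NNReal.coe_one, one_mul]
      exact al_norm (x - y)
    exact this.continuous
  have hcont_sc : Continuous (sc : U A → ℂ) := by
    have : LipschitzWith 1 (sc : U A → ℂ) := LipschitzWith.of_dist_le_mul fun x y => by
      rw [dist_eq_norm, dist_eq_norm, NNReal.coe_one, one_mul]
      exact sc_norm (x - y)
    exact this.continuous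
  have hclU : IsClosed (JU J : Set (U A)) := by
    have : (JU J : Set (U A)) = (sc ⁻¹' {0}) ∩ (al ⁻¹' (J : Set A)) := by
      ext x; exact mem_JU J x
    rw [this]
    exact (isClosed_singleton.preimage hcont_sc).inter (hcl.preimage hcont_al)
  have hfdU : FiniteDimensional ℂ (U A ⧸ JU J) := by
    let f1 : A ⧸ J →ₗ[ℂ] U A ⧸ JU J := J.mapQ (JU J) ((inc : A →L[ℂ] U A) : A →ₗ[ℂ] U A) (fun x hx => ⟨x, hx, rfl⟩)
    let f : ℂ × (A ⧸ J) →ₗ[ℂ] U A ⧸ JU J :=
      (LinearMap.toSpanSingleton ℂ _ (Submodule.Quotient.mk (1 : U A))).coprod f1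
    refine Module.Finite.of_surjective f ?_
    intro y
    obtain ⟨z, rfl⟩ := Submodule.Quotient.mk_surjective _ y
    refine ⟨(sc z, Submodule.Quotient.mk (al z)), ?_⟩
    conv_rhs => rw [decomp z]
    rfl
  obtain ⟨C, hC⟩ := Pool.Agent.Helper629.BAC.two_sided hU hJU hclU hfdU
  classical
  refine ⟨C, fun F hF ε hε => ?_⟩
  obtain ⟨e, heJ, he1, he2⟩ := hC (F.image inc) (by
    intro x hx
    obtain ⟨z, hz, rfl⟩ := Finset.mem_image.1 hx
    exact ⟨z, hF z hz, rfl⟩) ε hε
  obtain ⟨e', he', rfl⟩ := heJ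
  refine ⟨e', he', ?_, fun x hx => ?_⟩
  · have := he1
    change ‖(inc e' : U A)‖ ≤ C at this
    rwa [inc_norm] at this
  · have := he2 (inc x) (Finset.mem_image_of_mem _ hx)
    change ‖(inc e' : U A) * inc x - inc x‖ < ε ∧ ‖(inc x : U A) * inc e' - inc x‖ < ε at this
    rw [← inc_mul, ← inc_mul, ← map_sub, ← map_sub, inc_norm, inc_norm] at this
    exact this

end Pool.Agent.Results.MP_086137_an.GeneralCase
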